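import Pool.Agent.H912R3.Eq.Fin2

/-!
# Ehrhart's volume conjecture

For every `d ≥ 1`, every lattice `L = A ℤ^d` and every convex body `K` in `ℝ^d` with centroid `0`
whose interior contains no point of `L` other than `0`, `V(K) ≤ (d+1)^d / d! · |det A|`; equality
holds iff `K` is the image of the simplex `{y : y_i ≥ -1, ∑ y_i ≤ 1}` under a linear map that
maps `ℤ^d` onto `L`.

The case `L = ℤ^d` is proved in the library `Pool.Agent.H912R3`.
-/

set_option autoImplicit false

noncomputable section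

open MeasureTheory Set
open scoped Matrix

namespace Pool.Agent.Results.MP_4c844b_co.EhrhartVolume

/-- the lattice `A ℤ^d` -/
def lattice {d : ℕ} (A : Matrix (Fin d) (Fin d) ℝ) : Set (Fin d → ℝ) :=
  {x | ∃ z : Fin d → ℤ, x = A *ᵥ (fun i => (z i : ℝ))}

/-- the centroid `(1/V(K)) ∫_K x dx` -/
def centroid {d : ℕ} (K : Set (Fin d → ℝ)) : Fin d → ℝ :=
  (volume.real K)⁻¹ • ∫ x in K, x

/-- the simplex `{y : y_i ≥ -1 for all i, ∑ y_i ≤ 1}`, with vertices `-1 + (d+1) e_i` and `-1`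
(all coordinates `-1`) -/
def simplex (d : ℕ) : Set (Fin d → ℝ) := {y | (∀ i, -1 ≤ y i) ∧ ∑ i, y i ≤ 1}

open Pool.Agent.H912R3.Ehr in
theorem core {d : ℕ} (hd : 1 ≤ d) (A : Matrix (Fin d) (Fin d) ℝ) (hA : A.det ≠ 0)
    (K : Set (Fin d → ℝ)) (hK : IsCompact K) (hKc : Convex ℝ K)
    (hz : ∀ i, ∫ x in K, x i = 0) (hint : interior K ∩ lattice A = {0}) :
    volume.real K ≤ ((d : ℝ) + 1) ^ d / d.factorial * |A.det| ∧
      (volume.real K = ((d : ℝ) + 1) ^ d / d.factorial * |A.det| ↔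
        ∃ U : Matrix (Fin d) (Fin d) ℤ, IsUnit U.det ∧
          K = (fun y => A *ᵥ (U.map (Int.cast : ℤ → ℝ) *ᵥ y)) '' simplex d) := by
  have hu : IsUnit A.det := isUnit_iff_ne_zero.2 hA
  set S : (Fin d → ℝ) →ₗ[ℝ] (Fin d → ℝ) := Matrix.toLin' A⁻¹ with hS
  have hSx : ∀ x, S x = A⁻¹ *ᵥ x := fun x => Matrix.toLin'_apply _ _
  have hdet : LinearMap.det S = A.det⁻¹ := by
    rw [hS, LinearMap.det_toLin', Matrix.det_nonsing_inv, Ring.inverse_eq_inv']
  have hne : LinearMap.det S ≠ 0 := by rw [hdet]; exact inv_ne_zero hA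
  have hAS : ∀ x, A *ᵥ (S x) = x := fun x => by
    rw [hSx, Matrix.mulVec_mulVec, Matrix.mul_nonsing_inv _ hu, Matrix.one_mulVec]
  have hSA : ∀ x, S (A *ᵥ x) = x := fun x => by
    rw [hSx, Matrix.mulVec_mulVec, Matrix.nonsing_inv_mul _ hu, Matrix.one_mulVec]
  set e : (Fin d → ℝ) ≃L[ℝ] (Fin d → ℝ) :=
    (LinearMap.equivOfDetNeZero S hne).toContinuousLinearEquiv with he
  have hex : ∀ x, e x = S x := fun x => rfl
  set K' : Set (Fin d → ℝ) := S '' K with hK'
  have hK'e : K' = e '' K := rfl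
  have c1 : IsCompact K' := hK.image e.continuous
  have c2 : Convex ℝ K' := hKc.linear_image S
  have hintK' : interior K' = e '' interior K := by
    rw [hK'e]
    exact (e.toHomeomorph.image_interior K).symm
  have himg0 : (fun x => S x + 0) '' K = K' := by simp [hK']
  have hcov := fun g => cov S hne 0 hK.measurableSet g
  rw [himg0] at hcov
  have hvol : volume.real K' = |A.det|⁻¹ * volume.real K := by
    have h1 := hcov (fun _ => (1 : ℝ))
    rw [setIntegral_const, setIntegral_const, smul_eq_mul, smul_eq_mul, mul_one, mul_one, hdet,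
      abs_inv] at h1
    exact h1
  have c3 : ∀ i, ∫ x in K', x i = 0 := by
    intro i
    have h1 := hcov (fun y => y i)
    rw [h1]
    have h2 : ∫ x in K, (S x + 0) i = ∑ j, A⁻¹ i j * ∫ x in K, x j := by
      have e1 : ∀ x, (S x + 0) i = ∑ j, A⁻¹ i j * x j := by
        intro x; rw [add_zero, hSx]; rfl
      simp_rw [e1]
      rw [integral_finsetSum _ (fun j _ =>
        ((continuous_apply j).continuousOn.integrableOn_compact hK).const_mul _)]
      exact Finset.sum_congr rfl fun j _ => integral_const_mul _ _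
    rw [h2]
    simp [hz]
  have h0K : (0 : Fin d → ℝ) ∈ interior K := by
    have : (0 : Fin d → ℝ) ∈ interior K ∩ lattice A := by rw [hint]; rfl
    exact this.1
  have c4 : (0 : Fin d → ℝ) ∈ interior K' := by
    rw [hintK']
    exact ⟨0, h0K, by rw [hex, map_zero]⟩
  have c5 : ∀ z : Fin d → ℤ, (fun i => (z i : ℝ)) ∈ interior K' → z = 0 := by
    intro z hz'
    rw [hintK'] at hz'
    obtain ⟨x, hx, hxz⟩ := hz'
    have h1 : x = A *ᵥ (fun i => (z i : ℝ)) := by rw [← hxz, hex, hAS]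
    have h2 : x ∈ interior K ∩ lattice A := ⟨hx, z, h1⟩
    rw [hint, mem_singleton_iff] at h2
    rw [h2, hex, map_zero] at hxz
    funext i
    have h3 := congrFun hxz i
    simp only [Pi.zero_apply] at h3 ⊢
    exact_mod_cast h3.symm
  have hdpos : 0 < |A.det| := abs_pos.2 hA
  have hbound := ehrhart_int hd c1 c2 c3 c4 c5
  have hle : volume.real K ≤ ((d : ℝ) + 1) ^ d / d.factorial * |A.det| := by
    rw [hvol, inv_mul_le_iff₀ hdpos] at hbound
    linarith
  refine ⟨hle, fun h => ?_, ?_⟩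
  · have h1 : volume.real K' = ((d : ℝ) + 1) ^ d / d.factorial := by
      rw [hvol, h]
      field_simp
    obtain ⟨M, hM, hKM⟩ := core_eq hd c1 c2 c3 c4 c5 h1
    have hMu : IsUnit M.det := hM
    have hMi : M⁻¹ * M = 1 := Matrix.nonsing_inv_mul _ hMu
    have hMj : M * M⁻¹ = 1 := Matrix.mul_nonsing_inv _ hMu
    have hmap : ∀ (P Q : Matrix (Fin d) (Fin d) ℤ) (y : Fin d → ℝ),
        P.map (Int.cast : ℤ → ℝ) *ᵥ (Q.map (Int.cast : ℤ → ℝ) *ᵥ y) =
          (P * Q).map (Int.cast : ℤ → ℝ) *ᵥ y := by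
      intro P Q y
      rw [Matrix.mulVec_mulVec]
      congr 1
      exact (Matrix.map_mul (f := Int.castRingHom ℝ)).symm
    have hone : ∀ y : Fin d → ℝ, (1 : Matrix (Fin d) (Fin d) ℤ).map (Int.cast : ℤ → ℝ) *ᵥ y = y := by
      intro y
      rw [Matrix.map_one _ Int.cast_zero Int.cast_one, Matrix.one_mulVec]
    refine ⟨M⁻¹, ?_, ?_⟩
    · have h5 : M⁻¹.det * M.det = 1 := by rw [← Matrix.det_mul, hMi, Matrix.det_one]
      exact IsUnit.of_mul_eq_one _ h5
    · have hmem : ∀ y : Fin d → ℝ, y ∈ K' ↔ M.map (Int.cast : ℤ → ℝ) *ᵥ y ∈ simplex d := by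
        intro y
        rw [hKM]
        have e2 : ∀ i, (M.map (Int.cast : ℤ → ℝ) *ᵥ y) i = ∑ j, (M i j : ℝ) * y j := fun i => rfl
        simp only [mem_setOf_eq, Tx, simplex, e2]
        constructor
        · rintro ⟨h6, h7⟩
          refine ⟨fun i => by have := h6 i; linarith, ?_⟩
          rw [Finset.sum_add_distrib] at h7
          simp at h7
          linarith
        · rintro ⟨h6, h7⟩
          refine ⟨fun i => by have := h6 i; linarith, ?_⟩
          rw [Finset.sum_add_distrib]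
          simp
          linarith
      ext x
      constructor
      · intro hx
        have h6 : S x ∈ K' := ⟨x, hx, rfl⟩
        refine ⟨M.map (Int.cast : ℤ → ℝ) *ᵥ S x, (hmem _).1 h6, ?_⟩
        show A *ᵥ (M⁻¹.map (Int.cast : ℤ → ℝ) *ᵥ (M.map (Int.cast : ℤ → ℝ) *ᵥ S x)) = x
        rw [hmap, hMi, hone, hAS]
      · rintro ⟨y, hy, rfl⟩
        have h6 : M⁻¹.map (Int.cast : ℤ → ℝ) *ᵥ y ∈ K' := by
          rw [hmem, hmap, hMj, hone]
          exact hy
        obtain ⟨x, hx, hxy⟩ := h6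
        show A *ᵥ (M⁻¹.map (Int.cast : ℤ → ℝ) *ᵥ y) ∈ K
        rw [← hxy, hAS]
        exact hx
  · rintro ⟨U, hU, hKU⟩
    have hUi : U⁻¹ * U = 1 := Matrix.nonsing_inv_mul _ hU
    have hUj : U * U⁻¹ = 1 := Matrix.mul_nonsing_inv _ hU
    have hmap : ∀ (P Q : Matrix (Fin d) (Fin d) ℤ) (y : Fin d → ℝ),
        P.map (Int.cast : ℤ → ℝ) *ᵥ (Q.map (Int.cast : ℤ → ℝ) *ᵥ y) =
          (P * Q).map (Int.cast : ℤ → ℝ) *ᵥ y := by
      intro P Q y
      rw [Matrix.mulVec_mulVec]
      congr 1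
      exact (Matrix.map_mul (f := Int.castRingHom ℝ)).symm
    have hone : ∀ y : Fin d → ℝ, (1 : Matrix (Fin d) (Fin d) ℤ).map (Int.cast : ℤ → ℝ) *ᵥ y = y := by
      intro y
      rw [Matrix.map_one _ Int.cast_zero Int.cast_one, Matrix.one_mulVec]
    have hUu : IsUnit (U⁻¹).det := by
      have h5 : (U⁻¹).det * U.det = 1 := by rw [← Matrix.det_mul, hUi, Matrix.det_one]
      exact IsUnit.of_mul_eq_one _ h5
    have himg : (fun x : Fin d → ℝ => fun i => ∑ j, ((U⁻¹) i j : ℝ) * x j +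
        (((fun _ => 1 : Fin d → ℤ) i : ℤ) : ℝ)) '' K' = Tx d (d + 1) := by
      have hsum : ∀ y : Fin d → ℝ, (fun i => y i + 1) ∈ Tx d (d + 1) ↔ y ∈ simplex d := by
        intro y
        simp only [mem_setOf_eq, Tx, simplex]
        constructor
        · rintro ⟨h6, h7⟩
          refine ⟨fun i => by have := h6 i; linarith, ?_⟩
          rw [Finset.sum_add_distrib] at h7
          simp at h7
          linarith
        · rintro ⟨h6, h7⟩
          refine ⟨fun i => by have := h6 i; linarith, ?_⟩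
          rw [Finset.sum_add_distrib]
          simp
          linarith
      ext y
      constructor
      · rintro ⟨x, ⟨w, hw, rfl⟩, rfl⟩
        rw [hKU] at hw
        obtain ⟨t, ht, rfl⟩ := hw
        have e3 : (fun i => ∑ j, ((U⁻¹) i j : ℝ) *
            (S (A *ᵥ (U.map (Int.cast : ℤ → ℝ) *ᵥ t))) j) = t := by
          have : (fun i => ∑ j, ((U⁻¹) i j : ℝ) *
            (S (A *ᵥ (U.map (Int.cast : ℤ → ℝ) *ᵥ t))) j) =
            U⁻¹.map (Int.cast : ℤ → ℝ) *ᵥ (S (A *ᵥ (U.map (Int.cast : ℤ → ℝ) *ᵥ t))) := rfl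
          rw [this, hSA, hmap, hUi, hone]
        have e4 : (fun i => ∑ j, ((U⁻¹) i j : ℝ) *
            (S (A *ᵥ (U.map (Int.cast : ℤ → ℝ) *ᵥ t))) j +
            (((fun _ => 1 : Fin d → ℤ) i : ℤ) : ℝ)) = fun i => t i + 1 := by
          funext i
          have := congrFun e3 i
          simp only [Int.cast_one]
          rw [← this]
        show (fun i => ∑ j, ((U⁻¹) i j : ℝ) *
            (S (A *ᵥ (U.map (Int.cast : ℤ → ℝ) *ᵥ t))) j +
            (((fun _ => 1 : Fin d → ℤ) i : ℤ) : ℝ)) ∈ Tx d (d + 1)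
        rw [e4, hsum]
        exact ht
      · intro hy
        have ht : (fun i => y i - 1) ∈ simplex d := by
          rw [← hsum]
          simpa using hy
        refine ⟨U.map (Int.cast : ℤ → ℝ) *ᵥ (fun i => y i - 1), ?_, ?_⟩
        · refine ⟨A *ᵥ (U.map (Int.cast : ℤ → ℝ) *ᵥ (fun i => y i - 1)), ?_, hSA _⟩
          rw [hKU]
          exact ⟨_, ht, rfl⟩
        · funext i
          have e3 : U⁻¹.map (Int.cast : ℤ → ℝ) *ᵥ
              (U.map (Int.cast : ℤ → ℝ) *ᵥ (fun i => y i - 1)) = fun i => y i - 1 := by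
            rw [hmap, hUi, hone]
          have e4 := congrFun e3 i
          have e5 : (U⁻¹.map (Int.cast : ℤ → ℝ) *ᵥ
              (U.map (Int.cast : ℤ → ℝ) *ᵥ (fun i => y i - 1))) i =
              ∑ j, ((U⁻¹) i j : ℝ) * (U.map (Int.cast : ℤ → ℝ) *ᵥ (fun i => y i - 1)) j := rfl
          show ∑ j, ((U⁻¹) i j : ℝ) * (U.map (Int.cast : ℤ → ℝ) *ᵥ (fun i => y i - 1)) j +
            ((1 : ℤ) : ℝ) = y i
          rw [← e5, e4]
          simp
    have h7 := (converse c1 c5 hUu himg).2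
    rw [hvol] at h7
    rw [← h7]
    field_simp

/-- **Ehrhart's volume conjecture** for all lattices, with the case of equality. -/
theorem result :
    ∀ (d : ℕ), 1 ≤ d → ∀ A : Matrix (Fin d) (Fin d) ℝ, A.det ≠ 0 →
      ∀ K : Set (Fin d → ℝ), IsCompact K → Convex ℝ K → (interior K).Nonempty →
        centroid K = 0 → interior K ∩ lattice A = {0} →
          volume.real K ≤ ((d : ℝ) + 1) ^ d / d.factorial * |A.det| ∧
          (volume.real K = ((d : ℝ) + 1) ^ d / d.factorial * |A.det| ↔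
            ∃ U : Matrix (Fin d) (Fin d) ℤ, IsUnit U.det ∧
              K = (fun y => A *ᵥ (U.map (Int.cast : ℤ → ℝ) *ᵥ y)) '' simplex d) := by
  intro d hd A hA K hK hKc hne hc hint
  refine core hd A hA K hK hKc ?_ hint
  have hVpos : 0 < volume.real K := by
    have h1 : 0 < volume K :=
      (isOpen_interior.measure_pos volume hne).trans_le (measure_mono interior_subset)
    exact ENNReal.toReal_pos h1.ne' hK.measure_lt_top.ne
  have hI : (∫ x in K, x) = 0 := by
    unfold centroid at hc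
    rcases smul_eq_zero.1 hc with h | h
    · exact absurd h (inv_ne_zero hVpos.ne')
    · exact h
  intro i
  rw [← Pool.Agent.H912R3.Ehr.eval_int hK, hI]
  rfl

end Pool.Agent.Results.MP_4c844b_co.EhrhartVolume
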